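import Pool.Agent.Helper14.LK.St
import Pool.Agent.Helper14.LK.Basic

/-!
Project LK (MP_58b586_gt, helper14), module KB: integration by parts in the kernel variable.
-/

set_option autoImplicit false

namespace Pool.Agent.Helper64.LK
open Pool.Agent.Helper14.LK
open scoped ContDiff Topology
open MeasureTheory Set Filter

/-- the action as a continuous linear map in the kernel variable -/
private noncomputable def actL (n : ℕ) (r : ℝ) (y : EE n) : KK n →L[ℝ] EE n :=
  r • ContinuousLinearMap.fst ℝ (EE n) (Fin n → EE n) +
    ∑ j, y j • ((ContinuousLinearMap.proj (R := ℝ) (φ := fun _ : Fin n => EE n) j).comp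
      (ContinuousLinearMap.snd ℝ (EE n) (Fin n → EE n)))

private theorem actL_apply (n : ℕ) (r : ℝ) (y : EE n) (z : KK n) :
    actL n r y z = act z r y := by
  simp [actL, act]

private theorem haar_KK (n : ℕ) : (volume : Measure (KK n)).IsAddHaarMeasure := by
  have h1 : (volume : Measure (Fin n → EE n)).IsAddHaarMeasure := by
    rw [volume_pi]
    infer_instance
  rw [Measure.volume_eq_prod]
  infer_instance

theorem hKB : StKB := by
  intro n G _ _ _ ψ g hψ hψ0 hg r s x y u hs hrs
  have hactN : act (((r / s ^ 2) • u, fun j => (y j / s ^ 2) • u) : KK n) r y = u := by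
    have hy : ‖y‖ ^ 2 = ∑ j, y j ^ 2 := by
      rw [EuclideanSpace.norm_sq_eq]; simp
    have h1 : act (((r / s ^ 2) • u, fun j => (y j / s ^ 2) • u) : KK n) r y =
        ((r ^ 2 + ∑ j, y j ^ 2) / s ^ 2) • u := by
      simp only [act, smul_smul, ← Finset.sum_smul]
      rw [← add_smul]
      congr 1
      rw [add_div, Finset.sum_div]
      congr 1
      · ring
      · apply Finset.sum_congr rfl
        intro j _
        ring
    rw [h1, ← hy, hrs, div_self (by positivity), one_smul]
  have hL : (fun z : KK n => g (x + act z r y)) = fun z => g (x + actL n r y z) := by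
    funext z
    rw [actL_apply]
  have hgz : ContDiff ℝ ∞ (fun z : KK n => g (x + act z r y)) := by
    rw [hL]
    exact hg.comp (contDiff_const.add (actL n r y).contDiff)
  have hder : ∀ z, fderiv ℝ (fun z : KK n => g (x + act z r y)) z
      ((r / s ^ 2) • u, fun j => (y j / s ^ 2) • u) = fderiv ℝ g (x + act z r y) u := by
    intro z
    have h1 : HasFDerivAt (fun z : KK n => x + actL n r y z) (actL n r y) z :=
      (actL n r y).hasFDerivAt.const_add x
    have h2 : HasFDerivAt g (fderiv ℝ g (x + actL n r y z)) (x + actL n r y z) :=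
      (hg.differentiable (by simp) _).hasFDerivAt
    have h3 : HasFDerivAt (fun z : KK n => g (x + actL n r y z))
        ((fderiv ℝ g (x + actL n r y z)).comp (actL n r y)) z := h2.comp z h1
    rw [hL, h3.fderiv, ContinuousLinearMap.comp_apply, actL_apply, actL_apply, hactN]
  have hsup : HasCompactSupport ψ := by
    apply HasCompactSupport.intro (isCompact_closedBall (0 : KK n) 1)
    intro z hz
    apply hψ0
    rw [mem_closedBall_zero_iff, not_le] at hz
    exact hz.le
  have hsup' : HasCompactSupport (fun z => fderiv ℝ ψ z
      ((r / s ^ 2) • u, fun j => (y j / s ^ 2) • u)) := by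
    have h := hsup.fderiv (𝕜 := ℝ)
    exact h.comp_left (g := fun L : KK n →L[ℝ] ℝ => L
      ((r / s ^ 2) • u, fun j => (y j / s ^ 2) • u)) (by simp)
  have hψc : Continuous ψ := hψ.continuous
  have hψc' : Continuous (fun z => fderiv ℝ ψ z
      ((r / s ^ 2) • u, fun j => (y j / s ^ 2) • u)) :=
    (hψ.continuous_fderiv (by simp)).clm_apply continuous_const
  have hgc : Continuous (fun z : KK n => g (x + act z r y)) := hgz.continuous
  have hgc' : Continuous (fun z : KK n => fderiv ℝ (fun z : KK n => g (x + act z r y)) z
      ((r / s ^ 2) • u, fun j => (y j / s ^ 2) • u)) :=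
    (hgz.continuous_fderiv (by simp)).clm_apply continuous_const
  have := haar_KK n
  have key := integral_smul_fderiv_eq_neg_fderiv_smul_of_integrable (μ := (volume : Measure (KK n)))
    (f := ψ) (g := fun z : KK n => g (x + act z r y))
    (v := (((r / s ^ 2) • u, fun j => (y j / s ^ 2) • u) : KK n))
    ((hψc'.smul hgc).integrable_of_hasCompactSupport hsup'.smul_right)
    ((hψc.smul hgc').integrable_of_hasCompactSupport hsup.smul_right)
    ((hψc.smul hgc).integrable_of_hasCompactSupport hsup.smul_right)
    (fun z _ => hψ.differentiable (by simp) z) (fun z _ => hgz.differentiable (by simp) z)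
  unfold smo
  rw [← key]
  congr 1
  funext z
  rw [hder]

end Pool.Agent.Helper64.LK
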